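import Pool.Agent.KS6_83.SR.D

/-!
# The sparse random removal lemma for all edge probabilities

For every graph `H` with at least one edge and every `ε > 0` there are a single `δ > 0` and
`a, γ > 0` such that, for all large `n` and for EVERY edge probability `p`, the probability that the
binomial random graph fails to have the removal property is at most
`min (exp (-a p n²)) (n^(-γ))`. In particular the removal property holds asymptotically almost
surely for every sequence `p(n)` of edge probabilities, without any condition. The question is about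
the window `c n^(-1/m₂(H)) ≤ p ≤ C n^(-1/m₂(H))`, where `δ` may depend on `c` and `C`.
-/

set_option autoImplicit false

open Filter Topology

namespace Pool.Agent.Results.MP_9c932e_co.AllProbabilities

/-- The graphs `G₀` on `n` labelled vertices with the removal property: every subgraph `G` of `G₀`
with at most `δ p^e(H) n^v(H)` copies of `H` can be made `H`-free by deleting at most `ε p n²`
edges. -/
def Good {V : Type} [Fintype V] (H : SimpleGraph V) (ε δ : ℝ) (n : ℕ) (p : unitInterval) :
    Set (SimpleGraph (Fin n)) :=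
  {G₀ : SimpleGraph (Fin n) | ∀ G ≤ G₀,
    (G.copyCount H : ℝ) ≤ δ * (p : ℝ) ^ H.edgeSet.ncard * (n : ℝ) ^ Fintype.card V →
    ∃ s : Finset (Sym2 (Fin n)), (s.card : ℝ) ≤ ε * (p : ℝ) * (n : ℝ) ^ 2 ∧
      H.Free (G.deleteEdges (s : Set (Sym2 (Fin n))))}

/-- **The sparse random removal lemma, for all edge probabilities with one `δ`**, and with the
probability of failure. -/
theorem result {V : Type} [Fintype V] (H : SimpleGraph V) (hH : H ≠ ⊥) (ε : ℝ) (hε : 0 < ε) :
    ∃ δ a γ : ℝ, 0 < δ ∧ 0 < a ∧ 0 < γ ∧
      (∀ᶠ n : ℕ in atTop, ∀ p : unitInterval,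
        SimpleGraph.binomialRandom (Fin n) p (Good H ε δ n p)ᶜ ≤
          ENNReal.ofReal (min (Real.exp (-(a * ((p : ℝ) * (n : ℝ) ^ 2)))) ((n : ℝ) ^ (-γ)))) ∧
      ∀ p : ℕ → unitInterval,
        Tendsto (fun n : ℕ => SimpleGraph.binomialRandom (Fin n) (p n) (Good H ε δ n (p n)))
          atTop (𝓝 1) := by
  classical
  have hE : (Pool.Agent.N437.RL.ef H).Nonempty := by
    rw [← SimpleGraph.edgeSet_nonempty] at hH
    obtain ⟨e, he⟩ := hH
    exact ⟨e, Pool.Agent.N437.RL.mem_ef.2 he⟩
  obtain ⟨δ, a, γ, hδ, ha, hγ, h⟩ := Pool.Agent.KS6_83.SR.all_p H hE hε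
  exact ⟨δ, a, γ, hδ, ha, hγ, h, fun p => h.tendsto hγ p⟩

end Pool.Agent.Results.MP_9c932e_co.AllProbabilities
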